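import Pool.Agent.R2.GL.Semi

set_option autoImplicit false

/-!
# Erdős' girth conjecture: graphs whose automorphism orbits are divisible by a large prime

The known graphs of girth greater than `2 k` with about `n ^ (1 + 1 / k)` edges have one or two orbits
of vertices. Let `X` be ANY graph with `n` vertices, `e` edges and no cycle of length at most `2 k`, and
let `p` be a prime with `p ^ 2 > n` that divides the number of vertices of every orbit of the
automorphism group (for a vertex-transitive graph: a prime factor of `n`). There is no condition on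
the group and on the vertex stabilisers. Then `p ⌊e / n⌋ ^ R ≤ 4 ^ size(R) n` for all `R ≤ k / 3`. So if
`X` has at least `c n ^ (1 + 1 / k)` edges, as in the conjecture, then `p ≤ C n ^ (1 - R / k)`.

Proof. A Sylow `p`-subgroup of the automorphism group has fewer than `p` orbits, none of them trivial,
so it contains an element without fixed points, which generates a group of order `p` acting freely.
Now the theorem of the starting files for commutative groups applies.
-/

namespace Pool.Agent.Results.MP_97687e_co.LargePrimeOrbits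

/-- Let `X` be a graph with `n = Fintype.card V` vertices without cycles of length at most `2 k`,
`k ≥ 1`, and `p` a prime with `n < p ^ 2` which divides the number of elements of every orbit
`{u | ∃ φ : X ≃g X, φ v = u}` of the group of automorphisms. For all `R` with `3 R ≤ k`:
`p ⌊e / n⌋ ^ R ≤ 4 ^ size(R) n`; and `e ≥ c n ^ (1 + 1 / k)`, `c > 0`, implies
`p ≤ 4 ^ size(R) (2 / c) ^ R n ^ (1 - R / k)`. -/
theorem result : ∀ (V : Type) [Fintype V] [Nonempty V] (X : SimpleGraph V) (p k : ℕ), p.Prime →
    Fintype.card V < p ^ 2 → (∀ v : V, p ∣ {u : V | ∃ φ : X ≃g X, φ v = u}.ncard) → 1 ≤ k →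
    (∀ (v : V) (w : X.Walk v v), w.IsCycle → 2 * k < w.length) →
    ∀ R : ℕ, 3 * R ≤ k →
      p * (X.edgeSet.ncard / Fintype.card V) ^ R ≤ 4 ^ Nat.size R * Fintype.card V ∧
      ∀ c : ℝ, 0 < c → c * (Fintype.card V : ℝ) ^ (1 + 1 / (k : ℝ)) ≤ (X.edgeSet.ncard : ℝ) →
        (p : ℝ) ≤ 4 ^ Nat.size R * (2 / c) ^ R *
          (Fintype.card V : ℝ) ^ (1 - (R : ℝ) / (k : ℝ)) := by
  classical
  intro V _ _ X p k hp hn horb hk hgirth R hR
  have horb' : ∀ v : V, p ∣ Nat.card (MulAction.orbit (Pool.Agent.TH669.AD.autGroup X) v) := by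
    intro v
    have h1 : {u : V | ∃ φ : X ≃g X, φ v = u} =
        MulAction.orbit (Pool.Agent.TH669.AD.autGroup X) v := by
      ext u
      constructor
      · rintro ⟨φ, hφ⟩
        exact ⟨⟨φ.toEquiv, fun a b => φ.map_adj_iff⟩, hφ⟩
      · rintro ⟨a, ha⟩
        exact ⟨⟨a.1, fun {x y} => a.2 x y⟩, ha⟩
    have h2 := horb v
    rw [h1] at h2
    exact h2
  obtain ⟨c, hfree, hcard⟩ := Pool.Agent.R2.GL.exists_semiregular hp X horb' hn
  let _ : Fintype (Subgroup.zpowers c) := Fintype.ofFinite _
  have hc' : Fintype.card (Subgroup.zpowers c) = p := by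
    rw [← Nat.card_eq_fintype_card]
    exact hcard
  have haut : ∀ (a : Pool.Agent.TH669.AD.autGroup X) (u v : V), X.Adj u v →
      X.Adj (a • u) (a • v) := fun a u v h => (a.2 u v).2 h
  have hlaw : Pool.Agent.H268R2.LB.AltLaw (Subgroup.zpowers c) 3 3 :=
    Pool.Agent.H268R2.LB.altLaw_comm (fun a b => by
      obtain ⟨i, hi⟩ := Subgroup.mem_zpowers_iff.1 a.2
      obtain ⟨j, hj⟩ := Subgroup.mem_zpowers_iff.1 b.2
      apply Subtype.ext
      rw [Subgroup.coe_mul, Subgroup.coe_mul, ← hi, ← hj, ← zpow_add, ← zpow_add, add_comm])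
  have hE : X.edgeSet.ncard = X.edgeFinset.card := by
    rw [← SimpleGraph.coe_edgeFinset, Set.ncard_coe_finset]
  constructor
  · have h1 := Pool.Agent.H268R2.LB.edges_bound (A := Subgroup.zpowers c) (M := 2 * k) (L := 3)
      (N := 3) (R := R) hgirth (fun a u v h => haut a.1 u v h)
      (fun a v hv => Subtype.ext (hfree a.1 a.2 v hv)) hlaw (by omega)
    rw [hc'] at h1
    rw [hE]
    exact h1
  · intro e he hedge
    rw [hE] at hedge
    have h1 := Pool.Agent.H268R2.LB.real_bound (A := Subgroup.zpowers c) (L := 3)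
      (N := 3) (R := R) hgirth (fun a u v h => haut a.1 u v h)
      (fun a v hv => Subtype.ext (hfree a.1 a.2 v hv)) hlaw hk hR he hedge
    have h2 : (((2 * (3 - 1)) ^ Nat.size R : ℕ) : ℝ) = 4 ^ Nat.size R := by
      norm_num
    rw [h2, hc'] at h1
    exact h1

end Pool.Agent.Results.MP_97687e_co.LargePrimeOrbits
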