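import Pool.Agent.H96.Median
import Pool.Agent.H607R2.BW.GIR

/-!
# Graphs of large girth whose neighbourhoods are unions of few median-closed sets

The vertices are `m`-bit strings, in any labelling. A set of strings is median-closed if it contains
the coordinatewise majority of any three of its members; these are exactly the sets defined by
formulas in 2-CNF (for example subcubes, or the vertex sets of median graphs). If the neighbourhood
of every vertex is a union of at most `L` median-closed sets and the girth is greater than four,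
the graph has at most `L n ^ (1 + o(1))` edges. So the graphs of girth greater than `2 k` with
`c n ^ (1 + 1 / k)` edges which the girth conjecture asks for need `L ≥ n ^ (1 / k - o(1))`; this
exponent cannot be improved for such graphs with degrees `O(n ^ (1 / k))`, as every single string
is a median-closed set.
-/

set_option autoImplicit false

namespace Pool.Agent.Results.MP_97687e_co.MedianNeighbourhoods

open Pool.Agent.H96.Median

theorem result :
    -- (1) the bound
    (∀ (m d L : ℕ) (V : Type) [Fintype V] (lab : V → Fin m → Bool) (G : SimpleGraph V),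
      1 ≤ d → Function.Injective lab →
      (∀ x, MedUnion L (lab '' G.neighborSet x)) → 4 < G.egirth →
      (Nat.card G.edgeSet : ℝ) ≤
        L * ((Fintype.card V) * ((2 : ℝ) ^ m) ^ (1 / ((d : ℝ) + 1)) +
          2 * (m + 1) ^ d * 2 ^ m)) ∧
    -- (2) the graphs of the girth conjecture
    (∀ (k D : ℕ) (c δ : ℝ), 2 ≤ k → 0 < c → δ < 1 / k →
      ∃ n₀ : ℕ, ∀ (n m L : ℕ) (lab : Fin n → Fin m → Bool) (G : SimpleGraph (Fin n)), n₀ ≤ n →
        Function.Injective lab → 2 ^ m ≤ D * n →
        (∀ x, MedUnion L (lab '' G.neighborSet x)) →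
        ((2 * k : ℕ) : ℕ∞) < G.egirth →
        c * (n : ℝ) ^ (1 + 1 / (k : ℝ)) ≤ Nat.card G.edgeSet → (n : ℝ) ^ δ < L) := by
  have hclog : Nat.clog 2 2 = 1 := by decide
  refine ⟨?_, ?_⟩
  · intro m d L V _ lab G hd hlab hN hg
    have h := med_bound m d L 2 2 V lab G hd (by norm_num) hlab hN
      (Pool.Agent.H607R2.BW.t_GIR V G hg)
    rw [hclog] at h
    simpa using h
  · intro k D c δ hk hc hδ
    obtain ⟨n₀, hn₀⟩ := med_large 2 2 D c δ (1 / (k : ℝ)) (by norm_num) hc hδ
    refine ⟨n₀, fun n m L lab G hn hlab hD hN hg hE => hn₀ n m L lab G hn hlab hD hN ?_ hE⟩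
    apply Pool.Agent.H607R2.BW.t_GIR
    refine lt_of_le_of_lt ?_ hg
    have : 4 ≤ 2 * k := by omega
    exact_mod_cast this

end Pool.Agent.Results.MP_97687e_co.MedianNeighbourhoods
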