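import Pool.Agent.H96.TameAsy
import Pool.Agent.H607R2.BW.GIR

/-!
# Graphs of large girth whose neighbourhoods are unions of monotone or symmetric sets

The vertices are `m`-bit strings, in any labelling. A set of strings is tame with `c` classes if, for suitable preferred values of the bits and a
suitable partition of the positions into free positions and `c` classes, it is closed under giving
a free position its preferred value, and under changing two positions of one class of which exactly
one has its preferred value. Examples: all monotone and unate functions, in particular linear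
threshold functions with any weights (`c = 0`; `tame_threshold`), subcubes; all functions of the
numbers of ones in `c` blocks of bits (`tame_symmetric`), in particular parities, affine conditions
and Hamming balls and spheres with any centre; and mixtures of the two.

If the neighbourhood of every vertex is a union of at most `L` tame sets with `c` classes and the
girth is greater than four, the graph has at most `(2 ^ c L |V| + 2 (m + 1) ^ 2 2 ^ m) / 2` edges.
So the graphs of girth greater than `2 k` with `c₀ n ^ (1 + 1 / k)` edges which the girth conjecture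
asks for need `L ≥ c₁ n ^ (1 / k)` tame sets (for a bounded number of classes); this is best possible
up to the constant for such graphs with degrees `O(n ^ (1 / k))`, as single strings are tame.
-/

set_option autoImplicit false

namespace Pool.Agent.Results.MP_97687e_co.MonotoneOrSymmetric

open Pool.Agent.H96.Tame

theorem result :
    -- (1) the bound
    (∀ (m c L : ℕ) (V : Type) [Fintype V] (lab : V → Fin m → Bool) (G : SimpleGraph V),
      Function.Injective lab → (∀ x, TameUnion L c (lab '' G.neighborSet x)) → 4 < G.egirth →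
      2 * Nat.card G.edgeSet ≤ 2 ^ c * L * Fintype.card V + 2 * (m + 1) ^ 2 * 2 ^ m) ∧
    -- (2) the graphs of the girth conjecture
    (∀ (k D : ℕ) (c₀ : ℝ), 1 ≤ k → 0 < c₀ →
      ∃ n₀ : ℕ, ∀ (n m c L : ℕ) (lab : Fin n → Fin m → Bool) (G : SimpleGraph (Fin n)), n₀ ≤ n →
        Function.Injective lab → 2 ^ m ≤ D * n →
        (∀ x, TameUnion L c (lab '' G.neighborSet x)) →
        4 < G.egirth → ((2 * k : ℕ) : ℕ∞) < G.egirth →
        c₀ * (n : ℝ) ^ (1 + 1 / (k : ℝ)) ≤ Nat.card G.edgeSet →
        c₀ * (n : ℝ) ^ (1 / (k : ℝ)) ≤ L * 2 ^ c) := by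
  have hclog : Nat.clog 2 2 = 1 := by decide
  have h1 : ∀ (m c L : ℕ) (V : Type) [Fintype V] (lab : V → Fin m → Bool) (G : SimpleGraph V),
      Function.Injective lab → (∀ x, TameUnion L c (lab '' G.neighborSet x)) → 4 < G.egirth →
      2 * Nat.card G.edgeSet ≤ 2 ^ c * L * Fintype.card V + 2 * (m + 1) ^ 2 * 2 ^ m := by
    intro m c L V _ lab G hlab hN hg
    have h := graph_tame m c L 2 2 V lab G (by norm_num) hlab hN
      (Pool.Agent.H607R2.BW.t_GIR V G hg)
    rw [hclog] at h
    simp only [Nat.sub_self, pow_zero, mul_one] at h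
    refine h.trans (le_of_eq ?_)
    ring
  refine ⟨h1, ?_⟩
  intro k D c₀ hk hc
  have hk0 : (0 : ℝ) < k := by exact_mod_cast hk
  obtain ⟨K, hK, hKm⟩ := Pool.Agent.H96.Ppz.pow_small 2 (η := 1 / (2 * k)) (by positivity)
  have ht2 := (tendsto_rpow_atTop (show (0 : ℝ) < 1 / (2 * k) by positivity)).comp
    (tendsto_natCast_atTop_atTop (R := ℝ))
  obtain ⟨n₁, hn₁⟩ := Filter.eventually_atTop.1 (ht2.eventually_ge_atTop
    (2 * K * (D : ℝ) ^ (1 / (2 * (k : ℝ))) * D / c₀))
  refine ⟨max n₁ 1, ?_⟩
  intro n m c L lab G hn hlab hD hN hg _ hE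
  have hn1 : n₁ ≤ n := le_trans (le_max_left _ _) hn
  have hn2 : 1 ≤ n := le_trans (le_max_right _ _) hn
  have hn0 : (0 : ℝ) < n := by exact_mod_cast hn2
  have hb := h1 m c L (Fin n) lab G hlab hN hg
  rw [Fintype.card_fin] at hb
  have hb' : 2 * (Nat.card G.edgeSet : ℝ) ≤ 2 ^ c * L * n + 2 * ((m : ℝ) + 1) ^ 2 * 2 ^ m := by
    exact_mod_cast hb
  have hDn : ((2 : ℝ) ^ m) ≤ D * n := by exact_mod_cast hD
  have e3 : ((m : ℝ) + 1) ^ 2 ≤
      K * (D : ℝ) ^ (1 / (2 * (k : ℝ))) * (n : ℝ) ^ (1 / (2 * (k : ℝ))) := by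
    refine (hKm m).trans ?_
    rw [mul_assoc]
    apply mul_le_mul_of_nonneg_left _ hK.le
    rw [← Real.mul_rpow (by positivity) (by positivity)]
    exact Real.rpow_le_rpow (by positivity) hDn (by positivity)
  have e4 := hn₁ n hn1
  simp only [Function.comp] at e4
  rw [div_le_iff₀ hc] at e4
  have e5 : 2 * ((m : ℝ) + 1) ^ 2 * 2 ^ m ≤ c₀ * (n : ℝ) ^ (1 / (k : ℝ)) * n := by
    have e6 : (n : ℝ) ^ (1 / (k : ℝ)) =
        (n : ℝ) ^ (1 / (2 * (k : ℝ))) * (n : ℝ) ^ (1 / (2 * (k : ℝ))) := by
      rw [← Real.rpow_add hn0]; congr 1; field_simp; norm_num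
    calc 2 * ((m : ℝ) + 1) ^ 2 * 2 ^ m
        ≤ 2 * (K * (D : ℝ) ^ (1 / (2 * (k : ℝ))) * (n : ℝ) ^ (1 / (2 * (k : ℝ)))) * (D * n) := by
          gcongr
      _ = (2 * K * (D : ℝ) ^ (1 / (2 * (k : ℝ))) * D) * (n : ℝ) ^ (1 / (2 * (k : ℝ))) * n := by
          ring
      _ ≤ ((n : ℝ) ^ (1 / (2 * (k : ℝ))) * c₀) * (n : ℝ) ^ (1 / (2 * (k : ℝ))) * n := by gcongr
      _ = c₀ * (n : ℝ) ^ (1 / (k : ℝ)) * n := by rw [e6]; ring
  have e7 : (n : ℝ) ^ (1 + 1 / (k : ℝ)) = n * (n : ℝ) ^ (1 / (k : ℝ)) := by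
    rw [Real.rpow_add hn0, Real.rpow_one]
  rw [e7] at hE
  have e8 : (c₀ * (n : ℝ) ^ (1 / (k : ℝ))) * n ≤ (L * 2 ^ c) * n := by
    nlinarith
  exact le_of_mul_le_mul_right e8 hn0

end Pool.Agent.Results.MP_97687e_co.MonotoneOrSymmetric
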