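import Pool.Agent.R2.GL.PrimeAut

set_option autoImplicit false

/-!
# Erdős' girth conjecture: automorphisms of prime power order

Let `X` be ANY graph with `n` vertices and no cycle of length at most `2 k`, `k ≥ 2`, and `φ` an
automorphism of `X` whose order is a prime power `q = p ^ (a + 1)`. Let `ψ = φ ^ (p ^ a)`, `m` the
number of the vertices moved by `ψ` and `e'` the number of the edges with a moved end. Then
`q (⌊e' / m⌋ - 1) ^ R ≤ 4 ^ size(R) m` for all `R ≤ k / 3`, and `e' ≥ c m n ^ (1 / k)` implies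
`q ≤ 4 ^ size(R) (4 / c) ^ R n ^ (1 - R / k)`. The latter hypothesis holds for every automorphism if
all degrees are at least `2 c n ^ (1 / k)` (for instance if `X` is regular with `c n ^ (1 + 1 / k)`
edges), and it holds in all graphs if `e' ≥ c n ^ (1 + 1 / k)`. So the graphs which the girth
conjecture asks for have no automorphisms of large prime power order, except for those which live on
a sparse part of the graph. There is no condition on the orbits or the structure of the automorphism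
group.

Proof idea. The group generated by `φ` acts freely on the vertices moved by `ψ`, and each of them has
at most one fixed neighbour. So `e' - m` edges have two moved ends, and the theorem of the starting
files for commutative groups applies to the graph on the moved vertices.
-/

namespace Pool.Agent.Results.MP_97687e_co.PrimePowerAutomorphisms

open Finset Pool.Agent.R2.GL

open Classical in
theorem edges_le {V : Type} [Fintype V] (X : SimpleGraph V)
    (hgirth : ∀ (v : V) (w : X.Walk v v), w.IsCycle → 4 < w.length) (y : Equiv.Perm V)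
    (hy : ∀ u v : V, X.Adj u v → X.Adj (y u) (y v)) :
    {e : Sym2 V | e ∈ X.edgeSet ∧ ∃ v ∈ e, y v ≠ v}.ncard ≤
      (movedGraph X y).edgeSet.ncard + Fintype.card {v : V // y v ≠ v} := by
  let f : V → V := fun v => if h : ∃ u, y u = u ∧ X.Adj v u then h.choose else v
  have hsub : {e : Sym2 V | e ∈ X.edgeSet ∧ ∃ v ∈ e, y v ≠ v} ⊆
      (Sym2.map Subtype.val '' (movedGraph X y).edgeSet) ∪
        Set.range (fun v : {v : V // y v ≠ v} => s(v.1, f v.1)) := by
    have key : ∀ u w : V, X.Adj u w → y u ≠ u →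
        s(u, w) ∈ (Sym2.map Subtype.val '' (movedGraph X y).edgeSet) ∪
        Set.range (fun v : {v : V // y v ≠ v} => s(v.1, f v.1)) := by
      intro u w h hu
      by_cases hw : y w = w
      · right
        refine ⟨⟨u, hu⟩, ?_⟩
        have hex : ∃ u', y u' = u' ∧ X.Adj u u' := ⟨w, hw, h⟩
        have h1 : f u = hex.choose := dif_pos hex
        have h2 : f u = w := by
          rw [h1]
          exact fixed_neighbour_unique X hgirth y hy hu hex.choose_spec.1 hw
            hex.choose_spec.2 h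
        show s(u, f u) = s(u, w)
        rw [h2]
      · left
        exact ⟨s(⟨u, hu⟩, ⟨w, hw⟩), h, rfl⟩
    rintro e ⟨he, v, hv, hyv⟩
    induction e using Sym2.ind with
    | _ u w =>
      rcases Sym2.mem_iff.1 hv with rfl | rfl
      · exact key _ _ he hyv
      · rw [Sym2.eq_swap]
        exact key _ _ ((X.mem_edgeSet).1 he).symm hyv
  refine (Set.ncard_le_ncard hsub (Set.toFinite _)).trans ?_
  refine (Set.ncard_union_le _ _).trans ?_
  refine Nat.add_le_add (Set.ncard_image_le (Set.toFinite _)) ?_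
  rw [← Set.image_univ, ← Nat.card_eq_fintype_card, ← Set.ncard_univ]
  exact Set.ncard_image_le (Set.toFinite _)

open Classical in
theorem core {V : Type} [Fintype V] (X : SimpleGraph V) {k : ℕ} (hk : 2 ≤ k)
    (hgirth : ∀ (v : V) (w : X.Walk v v), w.IsCycle → 2 * k < w.length) {p a : ℕ} (hp : p.Prime)
    (φ : X ≃g X) (hφ : orderOf φ = p ^ (a + 1)) (R : ℕ) (hR : 3 * R ≤ k) :
    0 < {v : V | (φ ^ (p ^ a)) v ≠ v}.ncard ∧
    p ^ (a + 1) * ({e : Sym2 V | e ∈ X.edgeSet ∧ ∃ v ∈ e, (φ ^ (p ^ a)) v ≠ v}.ncard /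
      {v : V | (φ ^ (p ^ a)) v ≠ v}.ncard - 1) ^ R ≤
        4 ^ (Nat.size R) * {v : V | (φ ^ (p ^ a)) v ≠ v}.ncard := by
  -- the automorphism as a permutation
  let f : (X ≃g X) →* Equiv.Perm V :=
    { toFun := fun φ => φ.toEquiv
      map_one' := rfl
      map_mul' := fun _ _ => rfl }
  have hf : Function.Injective f := by
    intro φ ψ h
    exact DFunLike.ext _ _ (fun v => by
      have := congrArg (fun e : Equiv.Perm V => e v) h
      exact this)
  set x : Equiv.Perm V := f φ with hxdef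
  have hord : orderOf x = p ^ (a + 1) := by
    rw [hxdef, orderOf_injective f hf, hφ]
  have hx : ∀ u v : V, X.Adj u v → X.Adj (x u) (x v) := fun u v h => φ.map_adj_iff.2 h
  have hmoved : ∀ v : V, (x ^ (p ^ a)) v = (φ ^ (p ^ a)) v := by
    intro v
    have h3 : x ^ (p ^ a) = f (φ ^ (p ^ a)) := (map_pow f φ _).symm
    rw [h3]
    exact rfl
  simp only [← hmoved]
  set y : Equiv.Perm V := x ^ (p ^ a) with hydef
  have hcardM : {v : V | y v ≠ v}.ncard = Fintype.card {v : V // y v ≠ v} := by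
    rw [← Nat.card_eq_fintype_card, ← Nat.card_coe_set_eq]
    rfl
  rw [hcardM]
  have hy : ∀ u v : V, X.Adj u v → X.Adj (y u) (y v) := pow_adj x hx _
  have hy1 : y ≠ 1 := by
    intro h
    have h1 := orderOf_dvd_iff_pow_eq_one.2 h
    rw [hord] at h1
    have h2 := Nat.le_of_dvd (Nat.pow_pos hp.pos) h1
    have h3 : p ^ a < p ^ (a + 1) := Nat.pow_lt_pow_right hp.one_lt (by omega)
    omega
  obtain ⟨v₀, hv₀⟩ : ∃ v, y v ≠ v := by
    by_contra h
    push Not at h
    exact hy1 (Equiv.ext h)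
  have hne : Nonempty {v : V // y v ≠ v} := ⟨⟨v₀, hv₀⟩⟩
  refine ⟨Fintype.card_pos, ?_⟩
  letI : MulAction (Subgroup.zpowers x) {v : V // y v ≠ v} := movedAction x _
  have hfin : Finite (Subgroup.zpowers x) := by
    apply Nat.finite_of_card_ne_zero
    rw [Nat.card_zpowers, hord]
    exact pow_ne_zero _ hp.ne_zero
  letI : Fintype (Subgroup.zpowers x) := Fintype.ofFinite _
  have hcard : Fintype.card (Subgroup.zpowers x) = p ^ (a + 1) := by
    rw [← Nat.card_eq_fintype_card, Nat.card_zpowers, hord]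
  have hpow : ∀ b ∈ Subgroup.zpowers x, ∀ u w : V, X.Adj u w → X.Adj (b u) (b w) := by
    intro b hb
    have hb' : b ∈ Submonoid.powers x := by
      rw [mem_powers_iff_mem_zpowers]
      exact hb
    obtain ⟨n, rfl⟩ := hb'
    exact pow_adj x hx n
  have hlaw : Pool.Agent.H268R2.LB.AltLaw (Subgroup.zpowers x) 3 3 :=
    Pool.Agent.H268R2.LB.altLaw_comm (fun a b => by
      obtain ⟨i, hi⟩ := Subgroup.mem_zpowers_iff.1 a.2
      obtain ⟨j, hj⟩ := Subgroup.mem_zpowers_iff.1 b.2
      apply Subtype.ext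
      rw [Subgroup.coe_mul, Subgroup.coe_mul, ← hi, ← hj, ← zpow_add, ← zpow_add, add_comm])
  have h1 := Pool.Agent.H268R2.LB.edges_bound (A := Subgroup.zpowers x) (G := movedGraph X y)
    (M := 2 * k)
    (fun v p hp => moved_girth hgirth _ v p hp)
    (fun a u w h => hpow a.1 a.2 u.1 w.1 h)
    (fun b u h => Subtype.ext (free_of_moved hp hord b.2 u.2 (congrArg Subtype.val h)))
    hlaw (R := R) (by omega)
  rw [hcard] at h1
  have h2 : (2 * (3 - 1)) ^ (Nat.size R) = 4 ^ (Nat.size R) := by norm_num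
  rw [h2] at h1
  refine le_trans (Nat.mul_le_mul_left _ (Nat.pow_le_pow_left ?_ R)) h1
  have h3 := edges_le X (fun v w hw => by have := hgirth v w hw; omega) y hy
  have hE : (movedGraph X y).edgeSet.ncard = (movedGraph X y).edgeFinset.card := by
    rw [← SimpleGraph.coe_edgeFinset, Set.ncard_coe_finset]
  rw [hE] at h3
  have hpos : 0 < Fintype.card {v : V // y v ≠ v} := Fintype.card_pos
  have h4 := Nat.div_le_div_right (c := Fintype.card {v : V // y v ≠ v}) h3
  rw [Nat.add_div_right _ hpos] at h4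
  exact Nat.sub_le_iff_le_add.2 h4

/-- Let `X` be a graph with `n = Fintype.card V` vertices without cycles of length at most `2 k`,
`k ≥ 2`, and `φ` an automorphism of `X` whose order is a prime power `q = p ^ (a + 1)`. Let
`ψ = φ ^ (p ^ a)`, `m` the number of the vertices moved by `ψ` and `e'` the number of the edges of `X`
with at least one moved end. For all `R` with `3 R ≤ k`:
(1) `q (⌊e' / m⌋ - 1) ^ R ≤ 4 ^ size(R) m` (the difference is `0` if `e' < m`);
(2) `e' ≥ c m n ^ (1 / k)`, `c > 0`, implies `q ≤ 4 ^ size(R) (4 / c) ^ R n ^ (1 - R / k)`. -/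
theorem result : ∀ (V : Type) [Fintype V] (X : SimpleGraph V) (k : ℕ), 2 ≤ k →
    (∀ (v : V) (w : X.Walk v v), w.IsCycle → 2 * k < w.length) →
    ∀ (φ : X ≃g X) (p a : ℕ), p.Prime → orderOf φ = p ^ (a + 1) →
    ∀ m e' : ℕ, m = {v : V | (φ ^ (p ^ a)) v ≠ v}.ncard →
    e' = {e : Sym2 V | e ∈ X.edgeSet ∧ ∃ v ∈ e, (φ ^ (p ^ a)) v ≠ v}.ncard →
    ∀ R : ℕ, 3 * R ≤ k →
      p ^ (a + 1) * (e' / m - 1) ^ R ≤ 4 ^ Nat.size R * m ∧
      ∀ c : ℝ, 0 < c → c * m * (Fintype.card V : ℝ) ^ (1 / (k : ℝ)) ≤ e' →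
        (p : ℝ) ^ (a + 1) ≤ 4 ^ Nat.size R * (4 / c) ^ R *
          (Fintype.card V : ℝ) ^ (1 - (R : ℝ) / (k : ℝ)) := by
  intro V _ X k hk hgirth φ p a hp hφ m e' hm he' R hR
  obtain ⟨hm0, h1⟩ := core X hk hgirth hp φ hφ R hR
  have h2 : p ^ (a + 1) * (1 - 1) ^ 0 ≤ _ := (by
    obtain ⟨-, h⟩ := core X hk hgirth hp φ hφ 0 (by omega)
    simpa using h : p ^ (a + 1) * (1 - 1) ^ 0 ≤ {v : V | (φ ^ (p ^ a)) v ≠ v}.ncard)
  simp only [pow_zero, mul_one] at h2
  rw [← hm] at h1 h2 hm0
  rw [← he'] at h1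
  refine ⟨h1, fun c hc hce => ?_⟩
  have hmn : m ≤ Fintype.card V := by
    rw [hm, ← Nat.card_eq_fintype_card, ← Set.ncard_univ]
    exact Set.ncard_le_ncard (Set.subset_univ _) (Set.toFinite _)
  have hm0' : (0 : ℝ) < m := by exact_mod_cast hm0
  have hmn' : (m : ℝ) ≤ Fintype.card V := by exact_mod_cast hmn
  have hn0 : (0 : ℝ) < Fintype.card V := lt_of_lt_of_le hm0' hmn'
  have hk0 : (0 : ℝ) < k := by
    have : 0 < k := by omega
    exact_mod_cast this
  set t : ℝ := (Fintype.card V : ℝ) ^ (1 / (k : ℝ)) with ht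
  have ht0 : 0 < t := Real.rpow_pos_of_pos hn0 _
  have hq : (p : ℝ) ^ (a + 1) * (c / 4 * t) ^ R ≤ 4 ^ Nat.size R * Fintype.card V := by
    by_cases hbig : 4 ≤ c * t
    · have h3 : c / 4 * t ≤ ((e' / m - 1 : ℕ) : ℝ) := by
        have h4 : (e' : ℝ) < (e' / m + 1 : ℕ) * m := by
          have h7 := Nat.lt_mul_div_succ e' hm0
          rw [mul_comm] at h7
          exact_mod_cast h7
        have h5 : c * t < (e' / m + 1 : ℕ) := by
          by_contra hcon
          push Not at hcon
          have : ((e' / m + 1 : ℕ) : ℝ) * m ≤ c * t * m := mul_le_mul_of_nonneg_right hcon hm0'.le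
          nlinarith
        have h6 : ((e' / m : ℕ) : ℝ) - 1 ≤ ((e' / m - 1 : ℕ) : ℝ) := by
          have : e' / m ≤ (e' / m - 1) + 1 := by omega
          have h7 : ((e' / m : ℕ) : ℝ) ≤ ((e' / m - 1 : ℕ) : ℝ) + 1 := by exact_mod_cast this
          linarith
        push_cast at h5
        linarith
      calc (p : ℝ) ^ (a + 1) * (c / 4 * t) ^ R
          ≤ (p : ℝ) ^ (a + 1) * ((e' / m - 1 : ℕ) : ℝ) ^ R := by gcongr
        _ ≤ 4 ^ Nat.size R * m := by exact_mod_cast h1
        _ ≤ _ := by gcongr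
    · push Not at hbig
      have h3 : (c / 4 * t) ^ R ≤ 1 := by
        apply pow_le_one₀ (by positivity)
        linarith
      have h4 : (p : ℝ) ^ (a + 1) ≤ Fintype.card V := by
        exact_mod_cast h2.trans hmn
      have h5 : (1 : ℝ) ≤ 4 ^ Nat.size R := one_le_pow₀ (by norm_num)
      calc (p : ℝ) ^ (a + 1) * (c / 4 * t) ^ R ≤ (Fintype.card V : ℝ) * 1 := by
            apply mul_le_mul h4 h3 (by positivity) hn0.le
        _ ≤ 4 ^ Nat.size R * Fintype.card V := by nlinarith
  have h6 : (c / 4 * t) ^ R = (c / 4) ^ R * (Fintype.card V : ℝ) ^ ((R : ℝ) / k) := by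
    rw [mul_pow, ht, ← Real.rpow_natCast ((Fintype.card V : ℝ) ^ (1 / (k : ℝ))) R,
      ← Real.rpow_mul hn0.le]
    congr 2
    field_simp
  have h7 : (Fintype.card V : ℝ) ^ (1 - (R : ℝ) / (k : ℝ)) =
      Fintype.card V / (Fintype.card V : ℝ) ^ ((R : ℝ) / k) := by
    rw [Real.rpow_sub hn0, Real.rpow_one]
  rw [h6] at hq
  have h8 : 0 < (Fintype.card V : ℝ) ^ ((R : ℝ) / k) := Real.rpow_pos_of_pos hn0 _
  have h9 : (0 : ℝ) < (c / 4) ^ R := by positivity
  have h10 : (4 / c) ^ R = ((c / 4) ^ R)⁻¹ := by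
    rw [← inv_pow]
    congr 1
    field_simp
  rw [h7, h10, ← mul_div_assoc, le_div_iff₀ h8]
  have h11 : (p : ℝ) ^ (a + 1) * (Fintype.card V : ℝ) ^ ((R : ℝ) / k) * (c / 4) ^ R ≤
      4 ^ Nat.size R * Fintype.card V := by
    calc _ = (p : ℝ) ^ (a + 1) * ((c / 4) ^ R * (Fintype.card V : ℝ) ^ ((R : ℝ) / k)) := by ring
      _ ≤ _ := hq
  calc (p : ℝ) ^ (a + 1) * (Fintype.card V : ℝ) ^ ((R : ℝ) / k)
      = ((p : ℝ) ^ (a + 1) * (Fintype.card V : ℝ) ^ ((R : ℝ) / k) * (c / 4) ^ R) *
          ((c / 4) ^ R)⁻¹ := by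
        rw [mul_assoc, mul_inv_cancel₀ h9.ne', mul_one]
    _ ≤ (4 ^ Nat.size R * Fintype.card V) * ((c / 4) ^ R)⁻¹ :=
        mul_le_mul_of_nonneg_right h11 (by positivity)
    _ = _ := by ring

end Pool.Agent.Results.MP_97687e_co.PrimePowerAutomorphisms
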